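import Mathlib
import Pool.Agent.X72.BKRTrees

/-! Inequivalent bracketings of the BKR power of a single set can all be distinct. -/

namespace Pool.Agent.Results.MP_2d934b_pr.DistinctPowers

open Pool.Agent.X72.BKR

/-- Two bracketings of `A^r` are equivalent: one is obtained from the other by swapping the two
subtrees at some internal nodes. -/
inductive Eqv : BTree Unit → BTree Unit → Prop
  | refl (t : BTree Unit) : Eqv t t
  | swap (l r : BTree Unit) : Eqv (.node l r) (.node r l)
  | congr {l l' r r' : BTree Unit} : Eqv l l' → Eqv r r' → Eqv (.node l r) (.node l' r')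
  | trans {s t u : BTree Unit} : Eqv s t → Eqv t u → Eqv s u

section

variable {α : Type} [DecidableEq α]

/-- forget the labels -/
def forget : BTree α → BTree Unit
  | .leaf _ => .leaf ()
  | .node l r => .node (forget l) (forget r)

omit [DecidableEq α] in
theorem value_forget {ι S : Type} (A : Set (ι → S)) (t : BTree α) :
    (forget t).value (fun _ => A) = t.value (fun _ => A) := by
  induction t with
  | leaf a => rfl
  | node l r hl hr =>
    show bkr _ _ = bkr _ _
    rw [hl, hr]

theorem length_pos {γ : Type} (t : BTree γ) : 0 < t.word.length := by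
  induction t with
  | leaf a => simp [BTree.word]
  | node l r hl hr => simp only [BTree.word, List.length_append]; omega

theorem length_node {γ : Type} (l r : BTree γ) :
    (BTree.node l r).word.length = l.word.length + r.word.length := by
  simp [BTree.word]

omit [DecidableEq α] in
theorem exists_label (t : BTree Unit) : ∀ w : List α, w.length = t.word.length →
    ∃ T : BTree α, forget T = t ∧ T.word = w := by
  induction t with
  | leaf a =>
    intro w hw
    obtain ⟨c, rfl⟩ : ∃ c, w = [c] := List.length_eq_one_iff.mp (by simpa [BTree.word] using hw)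
    exact ⟨.leaf c, rfl, rfl⟩
  | node l r hl hr =>
    intro w hw
    rw [length_node] at hw
    obtain ⟨L, hL1, hL2⟩ := hl (w.take l.word.length) (by rw [List.length_take]; omega)
    obtain ⟨R, hR1, hR2⟩ := hr (w.drop l.word.length) (by rw [List.length_drop]; omega)
    refine ⟨.node L R, by rw [forget, hL1, hR1], ?_⟩
    show L.word ++ R.word = w
    rw [hL2, hR2, List.take_append_drop]

/-- `T` displays the rooted triple `i j | k` -/
def Valid : BTree α → α × α × α → Prop
  | .leaf _, _ => False
  | .node P Q, b => (b.1 ≠ b.2.1 ∧ ((b.1 ∈ P.word ∧ b.2.1 ∈ P.word ∧ b.2.2 ∈ Q.word) ∨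
      (b.1 ∈ Q.word ∧ b.2.1 ∈ Q.word ∧ b.2.2 ∈ P.word))) ∨ Valid P b ∨ Valid Q b

omit [DecidableEq α] in
theorem valid_mem (T : BTree α) (b : α × α × α) (hv : Valid T b) :
    b.1 ∈ T.word ∧ b.2.1 ∈ T.word ∧ b.2.2 ∈ T.word := by
  induction T with
  | leaf a => exact absurd hv (by simp [Valid])
  | node P Q hP hQ =>
    simp only [BTree.word, List.mem_append]
    rcases hv with ⟨-, h | h⟩ | h | h
    · exact ⟨Or.inl h.1, Or.inl h.2.1, Or.inr h.2.2⟩
    · exact ⟨Or.inr h.1, Or.inr h.2.1, Or.inl h.2.2⟩
    · have := hP h; tauto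
    · have := hQ h; tauto

omit [DecidableEq α] in
theorem valid_ne (T : BTree α) (b : α × α × α) (hT : T.word.Nodup) (hv : Valid T b) :
    b.1 ≠ b.2.1 ∧ b.1 ≠ b.2.2 ∧ b.2.1 ≠ b.2.2 := by
  induction T with
  | leaf a => exact absurd hv (by simp [Valid])
  | node P Q hP hQ =>
    have hn := List.nodup_append.mp (show (P.word ++ Q.word).Nodup from hT)
    rcases hv with ⟨h0, h | h⟩ | h | h
    · exact ⟨h0, hn.2.2 _ h.1 _ h.2.2, hn.2.2 _ h.2.1 _ h.2.2⟩
    · exact ⟨h0, (hn.2.2 _ h.2.2 _ h.1).symm, (hn.2.2 _ h.2.2 _ h.2.1).symm⟩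
    · exact hP hn.1 h
    · exact hQ hn.2.1 h

theorem valid_x0 (T : BTree α) (b : α × α × α) (hT : T.word.Nodup) (hv : Valid T b) :
    x0 ∈ T.value (blk b) := by
  obtain ⟨n1, n2, n3⟩ := valid_ne T b hT hv
  induction T with
  | leaf a => exact absurd hv (by simp [Valid])
  | node P Q hP hQ =>
    have hn := List.nodup_append.mp (show (P.word ++ Q.word).Nodup from hT)
    have hPQ : ∀ c, c ∈ P.word → c ∉ Q.word := fun c h h' => hn.2.2 c h c h' rfl
    have hQP : ∀ c, c ∈ Q.word → c ∉ P.word := fun c h h' => hn.2.2 c h' c h rfl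
    show x0 ∈ bkr (P.value _) (Q.value _)
    rcases hv with ⟨h0, h | h⟩ | h | h
    · rw [value_blk b n1 n2 n3 P hn.1 (fun h' => hQP _ h.2.2 h'.2.2),
        value_blk b n1 n2 n3 Q hn.2.1 (fun h' => hPQ _ h.1 h'.1)]
      simp only [h.1, h.2.1, h.2.2, hQP _ h.2.2, hPQ _ h.1, hPQ _ h.2.1, decide_true, decide_false,
        cls]
      exact x0_mem
    · rw [value_blk b n1 n2 n3 P hn.1 (fun h' => hQP _ h.1 h'.1),
        value_blk b n1 n2 n3 Q hn.2.1 (fun h' => hPQ _ h.2.2 h'.2.2)]
      simp only [h.1, h.2.1, h.2.2, hPQ _ h.2.2, hQP _ h.1, hQP _ h.2.1, decide_true, decide_false,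
        cls]
      rw [bkr_comm]
      exact x0_mem
    · have hm := valid_mem P b h
      rw [value_blk b n1 n2 n3 Q hn.2.1 (fun h' => hPQ _ hm.1 h'.1)]
      simp only [hPQ _ hm.1, hPQ _ hm.2.1, hPQ _ hm.2.2, decide_false, cls, bkr_univ]
      exact hP hn.1 h
    · have hm := valid_mem Q b h
      rw [value_blk b n1 n2 n3 P hn.1 (fun h' => hQP _ hm.1 h'.1)]
      simp only [hQP _ hm.1, hQP _ hm.2.1, hQP _ hm.2.2, decide_false, cls, univ_bkr]
      exact hQ hn.2.1 h

/-- the coordinates: selectors and blocks -/
abbrev kap (α : Type) : Option (α × α × α) → Type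
  | none => α
  | some _ => Fin 3

open Classical in
/-- the factors of the labelled sets -/
noncomputable def Fac (T : BTree α) (a : α) : ∀ c : Option (α × α × α), Set (kap α c → Bool)
  | none => {s | s a = true}
  | some b => if Valid T b then blk b a else Set.univ

/-- the single set -/
noncomputable def setA (T : BTree α) : Set ((Σ c : Option (α × α × α), kap α c) → Bool) :=
  ⋃ a, prodSet (Fac T a)

/-- the point with selectors `J` and blocks `z` -/
def act (J : Finset α) (z : α × α × α → Fin 3 → Bool) :
    (Σ c : Option (α × α × α), kap α c) → Bool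
  | ⟨none, a⟩ => decide (a ∈ J)
  | ⟨some b, i⟩ => z b i

theorem mem_value_of_label [Fintype α] (T T' : BTree α) (hT' : T'.word.Nodup)
    (z : α × α × α → Fin 3 → Bool)
    (hz : ∀ b, Valid T b → z b ∈ T'.value (blk b)) :
    act Finset.univ z ∈ (forget T').value (fun _ => setA T) := by
  classical
  rw [value_forget]
  have h1 : act Finset.univ z ∈ T'.value (fun a => prodSet (Fac T a)) := by
    rw [value_prodSet]
    intro c
    match c with
    | none =>
      have h2 := cyl_sub_value (f := fun a : α => {s : α → Bool | s a = true})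
        (x := fun a => decide (a ∈ (Finset.univ : Finset α))) (fun a => {a})
        (fun a b hab => by simpa using hab) (fun a y hy => by
          have := hy a rfl
          simpa using this) T' hT' (self_mem_cyl _ _)
      exact h2
    | some b =>
      by_cases hb : Valid T b
      · have e : (fun a => Fac T a (some b)) = blk b := by
          funext a
          simp [Fac, hb]
        show z b ∈ T'.value (fun a => Fac T a (some b))
        rw [e]
        exact hz b hb
      · have e : (fun a => Fac T a (some b)) = fun _ : α => (Set.univ : Set (Fin 3 → Bool)) := by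
          funext a
          simp [Fac, hb]
        show z b ∈ T'.value (fun a => Fac T a (some b))
        rw [e]
        clear e hz
        have : ∀ t : BTree α, t.value (fun _ => (Set.univ : Set (Fin 3 → Bool))) = Set.univ := by
          intro t
          induction t with
          | leaf a => rfl
          | node l r hl hr => rw [BTree.value, hl, hr, bkr_univ]
        rw [this]
        trivial
  exact value_mono (fun a => Set.subset_iUnion (fun a => prodSet (Fac T a)) a) T' h1

/-- the structure of a product at a point with given selectors -/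
theorem bkr_act {A B : Set ((Σ c : Option (α × α × α), kap α c) → Bool)} {J : Finset α}
    {z : α × α × α → Fin 3 → Bool} (h : act J z ∈ bkr A B) :
    ∃ J1 J2 : Finset α, J1 ⊆ J ∧ J2 ⊆ J ∧ Disjoint J1 J2 ∧
      ∃ K L : α × α × α → Set (Fin 3), (∀ b, Disjoint (K b) (L b)) ∧
        (∀ z', (∀ b, z' b ∈ cyl (z b) (K b)) → act J1 z' ∈ A) ∧
        (∀ z', (∀ b, z' b ∈ cyl (z b) (L b)) → act J2 z' ∈ B) := by
  classical
  obtain ⟨K, L, hd, h1, h2⟩ := h
  have key : ∀ (K : Set (Σ c : Option (α × α × α), kap α c))
      (A : Set ((Σ c : Option (α × α × α), kap α c) → Bool)), cyl (act J z) K ⊆ A →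
      ∀ z', (∀ b, z' b ∈ cyl (z b) {i | (⟨some b, i⟩ : Σ c, kap α c) ∈ K}) →
      act (J.filter fun a => (⟨none, a⟩ : Σ c, kap α c) ∈ K) z' ∈ A := by
    intro K A hKA z' hz'
    apply hKA
    rintro ⟨c, i⟩ hi
    match c with
    | none =>
      show decide (i ∈ _) = decide (i ∈ J)
      congr 1
      rw [Finset.mem_filter]
      simp [hi]
    | some b => exact hz' b i hi
  refine ⟨J.filter fun a => (⟨none, a⟩ : Σ c, kap α c) ∈ K,
    J.filter fun a => (⟨none, a⟩ : Σ c, kap α c) ∈ L, Finset.filter_subset _ _,
    Finset.filter_subset _ _, ?_, fun b => {i | (⟨some b, i⟩ : Σ c, kap α c) ∈ K},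
    fun b => {i | (⟨some b, i⟩ : Σ c, kap α c) ∈ L}, ?_, key K A h1, key L B h2⟩
  · rw [Finset.disjoint_left]
    intro a ha ha'
    rw [Finset.mem_filter] at ha ha'
    exact Set.disjoint_left.mp hd ha.2 ha'.2
  · intro b
    rw [Set.disjoint_left]
    intro i hi hi'
    exact Set.disjoint_left.mp hd hi hi'

theorem count (T : BTree α) (t : BTree Unit) : ∀ (J : Finset α) (z : α × α × α → Fin 3 → Bool),
    act J z ∈ t.value (fun _ => setA T) → t.word.length ≤ J.card := by
  induction t with
  | leaf u =>
    intro J z h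
    have h' : act J z ∈ setA T := h
    simp only [setA, Set.mem_iUnion] at h'
    obtain ⟨a, ha⟩ := h'
    have := ha none
    have h2 : decide (a ∈ J) = true := this
    have h3 : a ∈ J := by simpa using h2
    have : 0 < J.card := Finset.card_pos.mpr ⟨a, h3⟩
    simpa [BTree.word] using this
  | node l r hl hr =>
    intro J z h
    obtain ⟨J1, J2, hJ1, hJ2, hd, K, L, -, h1, h2⟩ := bkr_act h
    have c1 := hl J1 z (h1 z fun b => self_mem_cyl _ _)
    have c2 := hr J2 z (h2 z fun b => self_mem_cyl _ _)
    have c3 : (J1 ∪ J2).card ≤ J.card := Finset.card_le_card (Finset.union_subset hJ1 hJ2)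
    rw [Finset.card_union_of_disjoint hd] at c3
    rw [length_node]
    omega

/-- the class of a set of labels -/
def clsJ (b : α × α × α) (J : Finset α) : Set (Fin 3 → Bool) :=
  cls (decide (b.1 ∈ J)) (decide (b.2.1 ∈ J)) (decide (b.2.2 ∈ J))

theorem upper (T : BTree α) (hT : T.word.Nodup) (b : α × α × α) (hb : Valid T b)
    (t : BTree Unit) : ∀ (J : Finset α) (z : α × α × α → Fin 3 → Bool),
    J.card = t.word.length → act J z ∈ t.value (fun _ => setA T) → z b ∈ clsJ b J := by
  classical
  obtain ⟨n1, n2, n3⟩ := valid_ne T b hT hb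
  induction t with
  | leaf u =>
    intro J z hc h
    have h' : act J z ∈ setA T := h
    simp only [setA, Set.mem_iUnion] at h'
    obtain ⟨a, ha⟩ := h'
    have h2 : decide (a ∈ J) = true := ha none
    have h3 : a ∈ J := by simpa using h2
    have h4 : J = {a} := by
      obtain ⟨c, hc'⟩ := Finset.card_eq_one.mp (show J.card = 1 by simpa [BTree.word] using hc)
      rw [hc'] at h3 ⊢
      rw [Finset.mem_singleton] at h3
      rw [h3]
    have h5 : z b ∈ Fac T a (some b) := ha (some b)
    simp only [Fac, hb, if_true] at h5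
    rw [blk_eq b n1 n2 n3 a] at h5
    rw [h4, clsJ]
    simpa only [Finset.mem_singleton] using h5
  | node l r hl hr =>
    intro J z hc h
    obtain ⟨J1, J2, hJ1, hJ2, hd, K, L, hKL, h1, h2⟩ := bkr_act h
    have c1 := count T l J1 z (h1 z fun b => self_mem_cyl _ _)
    have c2 := count T r J2 z (h2 z fun b => self_mem_cyl _ _)
    have c3 : (J1 ∪ J2).card ≤ J.card := Finset.card_le_card (Finset.union_subset hJ1 hJ2)
    rw [length_node] at hc
    have c3' := c3
    rw [Finset.card_union_of_disjoint hd] at c3'
    have hJ : J1 ∪ J2 = J := by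
      apply Finset.eq_of_subset_of_card_le (Finset.union_subset hJ1 hJ2)
      rw [Finset.card_union_of_disjoint hd]
      omega
    have m : z b ∈ bkr (clsJ b J1) (clsJ b J2) := by
      refine ⟨K b, L b, hKL b, fun y hy => ?_, fun y hy => ?_⟩
      · have := hl J1 (Function.update z b y) (by omega) (h1 _ fun b' => by
          by_cases e : b' = b
          · subst e; rwa [Function.update_self]
          · rw [Function.update_of_ne e]; exact self_mem_cyl _ _)
        rwa [Function.update_self] at this
      · have := hr J2 (Function.update z b y) (by omega) (h2 _ fun b' => by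
          by_cases e : b' = b
          · subst e; rwa [Function.update_self]
          · rw [Function.update_of_ne e]; exact self_mem_cyl _ _)
        rwa [Function.update_self] at this
    have hdis : ∀ c : α, (decide (c ∈ J1) && decide (c ∈ J2)) = false := by
      intro c
      rw [Bool.eq_false_iff]
      intro h
      simp only [Bool.and_eq_true, decide_eq_true_eq] at h
      exact Finset.disjoint_left.mp hd h.1 h.2
    have m2 := cls_sub _ _ _ _ _ _ (hdis b.1) (hdis b.2.1) (hdis b.2.2) m
    rw [← hJ, clsJ]
    simpa only [Finset.mem_union, Bool.decide_or] using m2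

/-- the constant family -/
def z0 : α × α × α → Fin 3 → Bool := fun _ => x0

/-- a bad split of a displayed triple is impossible -/
theorem no_split (T : BTree α) (hT : T.word.Nodup) (b : α × α × α) (hb : Valid T b)
    (l r : BTree Unit) (J1 J2 : Finset α) (K L : Set (Fin 3))
    (hKL : Disjoint K L)
    (c1 : J1.card = l.word.length) (c2 : J2.card = r.word.length) (hd : Disjoint J1 J2)
    (h1 : ∀ z' : α × α × α → Fin 3 → Bool, (∀ b', b' ≠ b → z' b' = x0) → z' b ∈ cyl x0 K →
      act J1 z' ∈ l.value (fun _ => setA T))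
    (h2 : ∀ z' : α × α × α → Fin 3 → Bool, (∀ b', b' ≠ b → z' b' = x0) → z' b ∈ cyl x0 L →
      act J2 z' ∈ r.value (fun _ => setA T))
    (m1 : b.1 ∈ J1) (m2 : b.2.2 ∈ J1) (m3 : b.2.1 ∈ J2) : False := by
  classical
  have m : x0 ∈ bkr (clsJ b J1) (clsJ b J2) := by
    refine ⟨K, L, hKL, fun y hy => ?_, fun y hy => ?_⟩
    · have := upper T hT b hb l J1 (Function.update z0 b y) c1 (h1 _ (fun b' e => by
        rw [Function.update_of_ne e]; rfl) (by rwa [Function.update_self]))
      rwa [Function.update_self] at this
    · have := upper T hT b hb r J2 (Function.update z0 b y) c2 (h2 _ (fun b' e => by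
        rw [Function.update_of_ne e]; rfl) (by rwa [Function.update_self]))
      rwa [Function.update_self] at this
  have n1 : b.1 ∉ J2 := Finset.disjoint_left.mp hd m1
  have n2 : b.2.2 ∉ J2 := Finset.disjoint_left.mp hd m2
  have n3 : b.2.1 ∉ J1 := Finset.disjoint_right.mp hd m3
  simp only [clsJ, m1, m2, m3, n1, n2, n3, decide_true, decide_false, cls] at m
  exact x0_not_mem m

theorem Eqv.symm' {s t : BTree Unit} (h : Eqv s t) : Eqv t s := by
  induction h with
  | refl t => exact .refl t
  | swap l r => exact .swap r l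
  | congr _ _ h1 h2 => exact .congr h1 h2
  | trans _ _ h1 h2 => exact .trans h2 h1

/-- membership of the special point forces the shape -/
theorem shape (T : BTree α) (hT : T.word.Nodup) (T0 : BTree α) :
    ∀ t : BTree Unit, (∀ b, Valid T0 b → Valid T b) → T0.word.Nodup →
    t.word.length = T0.word.length →
    act T0.word.toFinset z0 ∈ t.value (fun _ => setA T) → Eqv t (forget T0) := by
  classical
  induction T0 with
  | leaf a =>
    intro t _ _ hlen _
    cases t with
    | leaf u => exact .refl _
    | node l r =>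
      exfalso
      rw [length_node] at hlen
      have := length_pos l
      have := length_pos r
      simp only [BTree.word, List.length_singleton] at hlen
      omega
  | node P Q hP hQ =>
    intro t hv hnd hlen h
    cases t with
    | leaf u =>
      exfalso
      rw [length_node] at hlen
      have := length_pos P
      have := length_pos Q
      simp only [BTree.word, List.length_singleton] at hlen
      omega
    | node l r =>
      obtain ⟨J1, J2, hJ1, hJ2, hd, K, L, hKL, h1, h2⟩ := bkr_act h
      have hn := List.nodup_append.mp (show (P.word ++ Q.word).Nodup from hnd)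
      have hPQ : ∀ c, c ∈ P.word → c ∉ Q.word := fun c h h' => hn.2.2 c h c h' rfl
      have hcard : (BTree.node P Q).word.toFinset.card = P.word.length + Q.word.length := by
        rw [List.toFinset_card_of_nodup hnd, length_node]
      have c1 := count T l J1 z0 (h1 z0 fun b => self_mem_cyl _ _)
      have c2 := count T r J2 z0 (h2 z0 fun b => self_mem_cyl _ _)
      have c3 : (J1 ∪ J2).card ≤ _ := Finset.card_le_card (Finset.union_subset hJ1 hJ2)
      rw [Finset.card_union_of_disjoint hd, hcard] at c3
      rw [length_node, length_node] at hlen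
      have e1 : J1.card = l.word.length := by omega
      have e2 : J2.card = r.word.length := by omega
      have hJ : J1 ∪ J2 = (BTree.node P Q).word.toFinset := by
        apply Finset.eq_of_subset_of_card_le (Finset.union_subset hJ1 hJ2)
        rw [Finset.card_union_of_disjoint hd, hcard]
        omega
      have memJ : ∀ c, (c ∈ J1 ∨ c ∈ J2) ↔ (c ∈ P.word ∨ c ∈ Q.word) := by
        intro c
        rw [← Finset.mem_union, hJ]
        simp [BTree.word]
      have H1 : ∀ (b : α × α × α) (z' : α × α × α → Fin 3 → Bool),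
          (∀ b', b' ≠ b → z' b' = x0) → z' b ∈ cyl x0 (K b) →
          act J1 z' ∈ l.value (fun _ => setA T) := by
        intro b z' hz hzb
        apply h1
        intro b'
        by_cases e : b' = b
        · subst e; exact hzb
        · rw [hz b' e]; exact self_mem_cyl _ _
      have H2 : ∀ (b : α × α × α) (z' : α × α × α → Fin 3 → Bool),
          (∀ b', b' ≠ b → z' b' = x0) → z' b ∈ cyl x0 (L b) →
          act J2 z' ∈ r.value (fun _ => setA T) := by
        intro b z' hz hzb
        apply h2
        intro b'
        by_cases e : b' = b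
        · subst e; exact hzb
        · rw [hz b' e]; exact self_mem_cyl _ _
      -- the two impossible patterns
      have imp1 : ∀ i j k, Valid T (i, j, k) → i ∈ J1 → k ∈ J1 → j ∈ J2 → False :=
        fun i j k hv hi hk hj => no_split T hT (i, j, k) hv l r J1 J2 _ _ (hKL (i, j, k)) e1 e2 hd
          (H1 _) (H2 _) hi hk hj
      have imp2 : ∀ i j k, Valid T (i, j, k) → i ∈ J2 → k ∈ J2 → j ∈ J1 → False :=
        fun i j k hv hi hk hj => no_split T hT (i, j, k) hv r l J2 J1 _ _ (hKL (i, j, k)).symm
          e2 e1 hd.symm (H2 _) (H1 _) hi hk hj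
      have vP : ∀ i j k, i ≠ j → i ∈ P.word → j ∈ P.word → k ∈ Q.word → Valid T (i, j, k) :=
        fun i j k hij hi hj hk => hv _ (Or.inl ⟨hij, Or.inl ⟨hi, hj, hk⟩⟩)
      have vQ : ∀ i j k, i ≠ j → i ∈ Q.word → j ∈ Q.word → k ∈ P.word → Valid T (i, j, k) :=
        fun i j k hij hi hj hk => hv _ (Or.inl ⟨hij, Or.inr ⟨hi, hj, hk⟩⟩)
      have hd1 : ∀ c, c ∈ J1 → c ∉ J2 := fun c h => Finset.disjoint_left.mp hd h
      have key1 : (∀ c ∈ J1, c ∈ P.word) ∨ (∀ c ∈ J1, c ∈ Q.word) := by
        by_contra hcon
        push Not at hcon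
        obtain ⟨⟨k, hk, hk'⟩, ⟨i, hi, hi'⟩⟩ := hcon
        have hkQ : k ∈ Q.word := ((memJ k).mp (Or.inl hk)).resolve_left hk'
        have hiP : i ∈ P.word := ((memJ i).mp (Or.inl hi)).resolve_right hi'
        obtain ⟨j, hj⟩ : J2.Nonempty := Finset.card_pos.mp (by rw [e2]; exact length_pos r)
        rcases (memJ j).mp (Or.inr hj) with hjP | hjQ
        · exact imp1 i j k (vP i j k (fun e => hd1 i hi (e ▸ hj)) hiP hjP hkQ) hi hk hj
        · exact imp1 k j i (vQ k j i (fun e => hd1 k hk (e ▸ hj)) hkQ hjQ hiP) hk hi hj
      have key2 : (∀ c ∈ J2, c ∈ P.word) ∨ (∀ c ∈ J2, c ∈ Q.word) := by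
        by_contra hcon
        push Not at hcon
        obtain ⟨⟨k, hk, hk'⟩, ⟨i, hi, hi'⟩⟩ := hcon
        have hkQ : k ∈ Q.word := ((memJ k).mp (Or.inr hk)).resolve_left hk'
        have hiP : i ∈ P.word := ((memJ i).mp (Or.inr hi)).resolve_right hi'
        obtain ⟨j, hj⟩ : J1.Nonempty := Finset.card_pos.mp (by rw [e1]; exact length_pos l)
        rcases (memJ j).mp (Or.inl hj) with hjP | hjQ
        · exact imp2 i j k (vP i j k (fun e => hd1 j hj (e ▸ hi)) hiP hjP hkQ) hi hk hj
        · exact imp2 k j i (vQ k j i (fun e => hd1 j hj (e ▸ hk)) hkQ hjQ hiP) hk hi hj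
      have hPne : ∃ c, c ∈ P.word := by
        have := length_pos P
        exact ⟨_, List.getElem_mem this⟩
      have hQne : ∃ c, c ∈ Q.word := by
        have := length_pos Q
        exact ⟨_, List.getElem_mem this⟩
      have hvP : ∀ b, Valid P b → Valid T b := fun b h => hv b (Or.inr (Or.inl h))
      have hvQ : ∀ b, Valid Q b → Valid T b := fun b h => hv b (Or.inr (Or.inr h))
      have m1 := h1 z0 fun b => self_mem_cyl _ _
      have m2 := h2 z0 fun b => self_mem_cyl _ _
      rcases key1 with k1 | k1 <;> rcases key2 with k2 | k2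
      · exfalso
        obtain ⟨c, hc⟩ := hQne
        rcases (memJ c).mpr (Or.inr hc) with h | h
        · exact hPQ c (k1 c h) hc
        · exact hPQ c (k2 c h) hc
      · -- `J1 = P`, `J2 = Q`
        have s1 : J1 = P.word.toFinset := by
          ext c
          rw [List.mem_toFinset]
          refine ⟨k1 c, fun hc => ?_⟩
          rcases (memJ c).mpr (Or.inl hc) with h | h
          · exact h
          · exact absurd (k2 c h) (hPQ c hc)
        have s2 : J2 = Q.word.toFinset := by
          ext c
          rw [List.mem_toFinset]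
          refine ⟨k2 c, fun hc => ?_⟩
          rcases (memJ c).mpr (Or.inr hc) with h | h
          · exact absurd hc (hPQ c (k1 c h))
          · exact h
        rw [s1] at m1 e1
        rw [s2] at m2 e2
        rw [List.toFinset_card_of_nodup hn.1] at e1
        rw [List.toFinset_card_of_nodup hn.2.1] at e2
        exact .congr (hP l hvP hn.1 e1.symm m1) (hQ r hvQ hn.2.1 e2.symm m2)
      · -- `J1 = Q`, `J2 = P`
        have s1 : J1 = Q.word.toFinset := by
          ext c
          rw [List.mem_toFinset]
          refine ⟨k1 c, fun hc => ?_⟩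
          rcases (memJ c).mpr (Or.inr hc) with h | h
          · exact h
          · exact absurd hc (hPQ c (k2 c h))
        have s2 : J2 = P.word.toFinset := by
          ext c
          rw [List.mem_toFinset]
          refine ⟨k2 c, fun hc => ?_⟩
          rcases (memJ c).mpr (Or.inl hc) with h | h
          · exact absurd (k1 c h) (hPQ c hc)
          · exact h
        rw [s1] at m1 e1
        rw [s2] at m2 e2
        rw [List.toFinset_card_of_nodup hn.2.1] at e1
        rw [List.toFinset_card_of_nodup hn.1] at e2
        exact .trans (.congr (hQ l hvQ hn.2.1 e1.symm m1) (hP r hvP hn.1 e2.symm m2)) (.swap _ _)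
      · exfalso
        obtain ⟨c, hc⟩ := hPne
        rcases (memJ c).mpr (Or.inl hc) with h | h
        · exact hPQ c hc (k1 c h)
        · exact hPQ c hc (k2 c h)

end

theorem finite_trees (n : ℕ) : {t : BTree Unit | t.word.length ≤ n}.Finite := by
  induction n with
  | zero =>
    convert Set.finite_empty
    ext t
    have := length_pos t
    simp only [Set.mem_ofPred_eq, Set.mem_empty_iff_false, iff_false]
    omega
  | succ n ih =>
    refine ((Set.finite_singleton (BTree.leaf ())).union (ih.image2 BTree.node ih)).subset ?_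
    intro t ht
    cases t with
    | leaf u => exact Or.inl rfl
    | node l r =>
      right
      have h1 := length_pos l
      have h2 := length_pos r
      have h3 : (BTree.node l r).word.length ≤ n + 1 := ht
      rw [length_node] at h3
      refine ⟨l, ?_, r, ?_, rfl⟩
      · show l.word.length ≤ n
        omega
      · show r.word.length ≤ n
        omega

/-- For every `r ≥ 5` there are a nonempty set `S`, `d ≥ 1` and `A ⊆ S^d` such that inequivalent
bracketings of `A^r` have different values. -/
theorem result (r : ℕ) (hr : 5 ≤ r) : ∃ (S : Type) (_ : Nonempty S) (d : ℕ) (_ : 1 ≤ d)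
    (A : Set (Fin d → S)), ∀ t t' : BTree Unit, t.word.length = r → t'.word.length = r →
      t.value (fun _ => A) = t'.value (fun _ => A) → Eqv t t' := by
  classical
  let 𝒯 : Type := {t : BTree Unit // t.word.length = r}
  have hfin : Finite 𝒯 := by
    have := (finite_trees r).subset (show {t : BTree Unit | t.word.length = r} ⊆ _ from
      fun t ht => le_of_eq ht)
    exact this.to_subtype
  have hlab : ∀ t : 𝒯, ∃ T : BTree (Fin r), forget T = t.1 ∧ T.word = List.finRange r :=
    fun t => exists_label t.1 (List.finRange r) (by rw [List.length_finRange, t.2])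
  choose lab hlab1 hlab2 using hlab
  have : Fintype 𝒯 := Fintype.ofFinite 𝒯
  have : ∀ c : Option (Fin r × Fin r × Fin r), Fintype (kap (Fin r) c) := fun c =>
    match c with
    | none => inferInstanceAs (Fintype (Fin r))
    | some _ => inferInstanceAs (Fintype (Fin 3))
  let κ : Type := Σ c : Option (Fin r × Fin r × Fin r), kap (Fin r) c
  let ι : Type := Σ _ : 𝒯, κ
  have hnd : ∀ t, (lab t).word.Nodup := fun t => by rw [hlab2]; exact List.nodup_finRange r
  -- there is a tree
  have hex : ∃ t : BTree Unit, t.word.length = r := by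
    have : ∀ n : ℕ, ∃ t : BTree Unit, t.word.length = n + 1 := by
      intro n
      induction n with
      | zero => exact ⟨.leaf (), rfl⟩
      | succ n ih =>
        obtain ⟨t, ht⟩ := ih
        exact ⟨.node t (.leaf ()), by rw [length_node, ht]; rfl⟩
    obtain ⟨t, ht⟩ := this (r - 1)
    exact ⟨t, by omega⟩
  obtain ⟨tt, htt⟩ := hex
  have hne : Nonempty ι := ⟨⟨⟨tt, htt⟩, ⟨none, (⟨0, by omega⟩ : Fin r)⟩⟩⟩
  refine ⟨Bool, ⟨true⟩, Fintype.card ι, Fintype.card_pos_iff.mpr hne,
    reidx (Fintype.equivFin ι) (prodSet fun t : 𝒯 => setA (lab t)), ?_⟩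
  intro t t' ht ht' h
  rw [value_reidx (Fintype.equivFin ι) (fun _ : Unit => prodSet fun t : 𝒯 => setA (lab t)),
    value_reidx (Fintype.equivFin ι) (fun _ : Unit => prodSet fun t : 𝒯 => setA (lab t))] at h
  have h2 := reidx_inj _ h
  rw [value_prodSet (fun (_ : Unit) (t : 𝒯) => setA (lab t)),
    value_prodSet (fun (_ : Unit) (t : 𝒯) => setA (lab t))] at h2
  have hnon : ∀ s : 𝒯, (t'.value (fun _ => setA (lab s))).Nonempty := by
    intro s
    refine ⟨act Finset.univ (fun _ => x1), ?_⟩
    have := mem_value_of_label (lab s) (lab ⟨t', ht'⟩) (hnd _) (fun _ => x1)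
      (fun b _ => x1_mem b _ (hnd _))
    rwa [hlab1] at this
  have h3 := prodSet_inj hnon h2.symm ⟨t', ht'⟩
  have h4 : act Finset.univ z0 ∈ t'.value (fun _ => setA (lab ⟨t', ht'⟩)) := by
    have := mem_value_of_label (lab ⟨t', ht'⟩) (lab ⟨t', ht'⟩) (hnd _) z0
      (fun b hb => valid_x0 _ b (hnd _) hb)
    rwa [hlab1] at this
  have h5 := h3 h4
  have h6 := shape (lab ⟨t', ht'⟩) (hnd _) (lab ⟨t', ht'⟩) t (fun _ hb => hb) (hnd _)
    (by rw [hlab2, List.length_finRange, ht]) (by
      have : (lab ⟨t', ht'⟩).word.toFinset = Finset.univ := by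
        rw [hlab2]
        ext i
        simp
      rw [this]
      exact h5)
  rwa [hlab1] at h6

end Pool.Agent.Results.MP_2d934b_pr.DistinctPowers
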